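import Pool.Agent.Lib.MP_76c07a_co.Attain
import Pool.Agent.Lib.MP_76c07a_co.Transc

set_option autoImplicit false

namespace Pool.Agent.Results.MP_76c07a_co.NotSemialgebraic

open Pool.Agent.Lib.MP_76c07a_co

/-- The feasibility set of the two words `10` and `1010` is not semi-algebraic. -/
theorem result :
    ¬ IsSemialgebraic (feasibilitySet ![[true, false], [true, false, true, false]]) := by
  rintro ⟨N, p, q, hE⟩
  classical
  -- description of the members of the feasibility set
  have hmem : ∀ y : Fin 2 → ℝ,
      y ∈ feasibilitySet ![[true, false], [true, false, true, false]] ↔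
      ∃ f, IsSublebesgue f ∧ y 0 = 2 * J f [true, false] 0 ∧
        y 1 = 24 * J f [true, false, true, false] 0 := by
    intro y
    refine exists_congr fun f => and_congr_right fun hf => ?_
    rw [Fin.forall_fin_two]
    simp only [Matrix.cons_val_zero, Matrix.cons_val_one, density_cons hf]
    norm_num [Nat.factorial]
  -- the product of the nonzero equations
  let P : MvPolynomial (Fin 2) ℝ := ∏ i ∈ Finset.univ.filter (fun i => p i ≠ 0), p i
  have hP : P ≠ 0 := Finset.prod_ne_zero_iff.2 fun i hi => (Finset.mem_filter.1 hi).2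
  refine hP (eq_zero_of_curve P fun L hL => ?_)
  set n : ℝ := Real.exp (-L) / 4 with hn
  have hn0 : 0 < n := by positivity
  have hn1 : n < 1 / 4 := by
    have : Real.exp (-L) < 1 := Real.exp_lt_one_iff.2 (by linarith)
    linarith
  have hlog : Real.log (4 * n) = -L := by
    have : 4 * n = Real.exp (-L) := by rw [hn]; ring
    rw [this, Real.log_exp]
  obtain ⟨ha, hb⟩ := extremal hn0 hn1
  set y : Fin 2 → ℝ := ![Real.exp (-L) * (1 + L) / 2, 3 / 4 * Real.exp (-L) ^ 2 * L ^ 2] with hy
  have hy0 : y 0 = 2 * (n * (1 + L)) := by simp only [hy, hn, Matrix.cons_val_zero]; ring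
  have hy1 : y 1 = 24 * (n ^ 2 * L ^ 2 / 2) := by
    simp only [hy, hn, Matrix.cons_val_one, Matrix.cons_val_zero]; ring
  have hyE : y ∈ feasibilitySet ![[true, false], [true, false, true, false]] := by
    rw [hmem]
    refine ⟨extF (2 * n), isSublebesgue_extF (by linarith), ?_, ?_⟩
    · rw [ha, hlog, hy0]; ring
    · rw [hb, hlog, hy1]; ring
  have hup : ∀ ε : ℝ, 0 < ε →
      ![y 0, y 1 + ε] ∉ feasibilitySet ![[true, false], [true, false, true, false]] := by
    intro ε hε h
    rw [hmem] at h
    obtain ⟨f, hf, h0, h1⟩ := h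
    simp only [Matrix.cons_val_zero, Matrix.cons_val_one] at h0 h1
    have h2 := upper_bound hf hn0 hn1.le
    have h3 : J f [true, false] 0 = n * (1 + L) := by linarith
    rw [h3] at h2
    unfold R at h2
    rw [hlog] at h2
    nlinarith
  rw [hE] at hyE
  obtain ⟨i, hi1, hi2⟩ := Set.mem_iUnion.1 hyE
  have hpi : p i ≠ 0 := by
    intro h0
    have hc : ∀ r : MvPolynomial (Fin 2) ℝ,
        Continuous fun ε : ℝ => MvPolynomial.eval ![y 0, y 1 + ε] r := by
      intro r
      refine (MvPolynomial.continuous_eval r).comp (continuous_pi fun j => ?_)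
      fin_cases j
      · exact continuous_const
      · exact continuous_const.add continuous_id
    have hy' : ![y 0, y 1 + 0] = y := by
      ext j; fin_cases j <;> simp
    have hev : ∀ᶠ ε in nhds (0 : ℝ), ∀ r ∈ q i, 0 < MvPolynomial.eval ![y 0, y 1 + ε] r := by
      rw [Filter.eventually_all_finset]
      intro r hr
      refine (hc r).continuousAt.eventually (lt_mem_nhds ?_)
      simp only [hy']
      exact hi2 r hr
    obtain ⟨ε, hε1, hε2⟩ := ((hev.filter_mono nhdsWithin_le_nhds).and
      (self_mem_nhdsWithin (s := Set.Ioi (0 : ℝ)))).exists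
    apply hup ε hε2
    rw [hE]
    exact Set.mem_iUnion.2 ⟨i, by simp [h0], hε1⟩
  simp only [P, map_prod]
  exact Finset.prod_eq_zero (Finset.mem_filter.2 ⟨Finset.mem_univ i, hpi⟩) hi1

end Pool.Agent.Results.MP_76c07a_co.NotSemialgebraic
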